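import Pool.Agent.Y714.KH.Stm
import Pool.Agent.Y714.KF.Nz

/-!
# Balancing by a unit (job KH-BAL), after `Pool/Agent/Y714/KF/Nz.lean`
-/

set_option autoImplicit false
set_option linter.unusedSectionVars false

namespace Pool.Agent.Y406.KH

open Pool.Agent.Y714.KF (ubas sum_log_unit exists_unit_repr card_emb)
open Pool.Agent.Y714.KH (S_BAL)
open NumberField Module Finset ComplexConjugate
open NumberField.Units NumberField.Units.dirichletUnitTheorem NumberField.InfinitePlace

section

variable {K : Type} [Field K] [NumberField K]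

lemma norm_conj_emb (σ : K →+* ℂ) (x : K) : ‖ComplexEmbedding.conjugate σ x‖ = ‖σ x‖ := by
  rw [ComplexEmbedding.conjugate_coe_eq, RCLike.norm_conj]

/-- a conjugation invariant function at the embedding of a place -/
lemma inv_mk {F : (K →+* ℂ) → ℝ} (hF : ∀ σ, F (ComplexEmbedding.conjugate σ) = F σ)
    (σ : K →+* ℂ) : F (InfinitePlace.mk σ).embedding = F σ := by
  rcases embedding_mk_eq σ with h1 | h1
  · rw [h1]
  · rw [h1, hF]

/-- sums over the places -/
lemma sum_mult {F : (K →+* ℂ) → ℝ} (hF : ∀ σ, F (ComplexEmbedding.conjugate σ) = F σ) :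
    ∑ w : InfinitePlace K, (mult w : ℝ) * F w.embedding = ∑ σ, F σ := by
  classical
  rw [← sum_fiberwise (univ : Finset (K →+* ℂ)) (fun σ => InfinitePlace.mk σ)]
  refine sum_congr rfl fun w _ => ?_
  rw [← card_filter_mk_eq w, ← nsmul_eq_mul, ← sum_const]
  refine sum_congr rfl fun σ hσ => ?_
  rw [← (mem_filter.1 hσ).2, inv_mk hF]

/-- conjugation invariant vectors of sum zero with bounded coordinates are bounded above -/
lemma bound_of_coord : ∃ C' : ℝ, 0 ≤ C' ∧ ∀ F : (K →+* ℂ) → ℝ,
    (∀ σ, F (ComplexEmbedding.conjugate σ) = F σ) → ∑ σ, F σ = 0 →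
    (∀ j, |(ubas K).repr (fun w => (mult w.1 : ℝ) * F w.1.embedding : logSpace K) j| ≤ 1) →
    ∀ σ, F σ ≤ C' := by
  classical
  set C1 : ℝ := ∑ j, ‖ubas K j‖ with hC1
  have hC1' : 0 ≤ C1 := by positivity
  refine ⟨Fintype.card (InfinitePlace K) * C1, by positivity, fun F hF hs hc σ => ?_⟩
  obtain ⟨l, hl⟩ : ∃ l : logSpace K, l = fun w => (mult w.1 : ℝ) * F w.1.embedding := ⟨_, rfl⟩
  rw [← hl] at hc
  have h1 : ‖l‖ ≤ C1 := by
    rw [← (ubas K).sum_repr l, hC1]
    refine (norm_sum_le _ _).trans (sum_le_sum fun j _ => ?_)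
    rw [norm_smul, Real.norm_eq_abs]
    exact mul_le_of_le_one_left (norm_nonneg _) (hc j)
  have h2 : ∀ w : InfinitePlace K, w ≠ w₀ → |(mult w : ℝ) * F w.embedding| ≤ C1 := by
    intro w hw
    have h3 := (norm_le_pi_norm l ⟨w, hw⟩).trans h1
    rw [hl] at h3
    exact h3
  have h3 : ∀ w : InfinitePlace K, (mult w : ℝ) * F w.embedding ≤
      Fintype.card (InfinitePlace K) * C1 := by
    intro w
    by_cases hw : w = w₀
    · have h4 := sum_mult hF
      rw [hs, ← add_sum_erase univ _ (mem_univ w)] at h4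
      have h5 : |∑ x ∈ univ.erase w, (mult x : ℝ) * F x.embedding| ≤
          Fintype.card (InfinitePlace K) * C1 := by
        refine (abs_sum_le_sum_abs _ _).trans ?_
        calc ∑ x ∈ univ.erase w, |(mult x : ℝ) * F x.embedding| ≤
            ∑ x ∈ univ.erase w, C1 := sum_le_sum fun x hx =>
              h2 x (fun h => (mem_erase.1 hx).1 (h.trans hw.symm))
          _ = (univ.erase w).card * C1 := by rw [sum_const, nsmul_eq_mul]
          _ ≤ _ := by
              gcongr
              exact_mod_cast card_le_univ _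
      have h6 := neg_abs_le (∑ x ∈ univ.erase w, (mult x : ℝ) * F x.embedding)
      linarith
    · refine (le_abs_self _).trans ((h2 w hw).trans ?_)
      have : (1 : ℝ) ≤ Fintype.card (InfinitePlace K) := by
        exact_mod_cast Fintype.card_pos
      nlinarith
  have h4 := h3 (InfinitePlace.mk σ)
  rw [inv_mk hF] at h4
  have h5 : (1 : ℝ) ≤ mult (InfinitePlace.mk σ) := by exact_mod_cast one_le_mult
  by_cases h6 : 0 ≤ F σ
  · nlinarith
  · push Not at h6
    have : 0 ≤ (Fintype.card (InfinitePlace K) : ℝ) * C1 := by positivity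
    linarith

end

/-- **Balancing by a unit.** -/
theorem bal : S_BAL := by
  classical
  intro K _ _
  obtain ⟨C, hC0, hC⟩ := bound_of_coord (K := K)
  refine ⟨C + 1, by linarith, fun L hL => ?_⟩
  obtain ⟨μ, hμ⟩ : ∃ μ : ℝ, μ = (∑ τ, L τ) / finrank ℚ K := ⟨_, rfl⟩
  rw [← hμ]
  obtain ⟨l, hl⟩ : ∃ l : logSpace K, l = fun w => (mult w.1 : ℝ) * (L w.1.embedding - μ) :=
    ⟨_, rfl⟩
  obtain ⟨u, hu⟩ := exists_unit_repr (K := K) fun j => -⌊(ubas K).repr l j⌋
  refine ⟨u, fun σ => ?_⟩
  have h := hC (fun σ => Real.log ‖σ (u : K)‖ + (L σ - μ)) ?_ ?_ ?_ σ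
  · linarith
  · intro τ
    rw [norm_conj_emb, hL]
  · rw [sum_add_distrib, sum_log_unit, zero_add, sum_sub_distrib, sum_const, card_univ, card_emb,
      nsmul_eq_mul, hμ]
    have : (finrank ℚ K : ℝ) ≠ 0 := by exact_mod_cast (finrank_pos (R := ℚ) (M := K)).ne'
    field_simp
    ring
  · intro j
    have e1 : (fun w => (mult w.1 : ℝ) * (Real.log ‖w.1.embedding (u : K)‖ +
        (L w.1.embedding - μ)) : logSpace K) = logEmbedding K (Additive.ofMul u) + l := by
      funext w
      rw [hl]
      simp only [Pi.add_apply, logEmbedding_component]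
      rw [norm_embedding_eq]
      ring
    rw [e1, map_add, Finsupp.add_apply, hu]
    have h1 := Int.floor_le ((ubas K).repr l j)
    have h2 := Int.lt_floor_add_one ((ubas K).repr l j)
    push_cast
    rw [abs_le]
    constructor <;> linarith

end Pool.Agent.Y406.KH
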